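import Mathlib

/-!
Extension lemmas for homomorphisms of finite abelian groups, and alternating forms.
-/

namespace Pool.Agent.P.MP_0b48ca_al.Crit

universe u

instance enough (G : Type*) [Group G] [Finite G] :
    HasEnoughRootsOfUnity ℂ (Monoid.exponent G) := by
  have : NeZero (Monoid.exponent G) := ⟨Monoid.exponent_ne_zero_of_finite⟩
  infer_instance

/-- A character that kills the kernel of a map to a finite abelian group extends. -/
theorem ext_char {M N : Type*} [Group M] [CommGroup N] [Finite N] (i : M →* N) (χ : M →* ℂˣ)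
    (h : ∀ m, i m = 1 → χ m = 1) : ∃ ψ : N →* ℂˣ, ∀ m, ψ (i m) = χ m := by
  have hs : Function.Surjective i.rangeRestrict := i.rangeRestrict_surjective
  have hk : i.rangeRestrict.ker ≤ χ.ker := by
    intro m hm
    rw [MonoidHom.mem_ker] at hm ⊢
    apply h
    have := congrArg Subtype.val hm
    simpa using this
  let χ' : i.range →* ℂˣ := i.rangeRestrict.liftOfSurjective hs ⟨χ, hk⟩
  obtain ⟨ψ, hψ⟩ := MonoidHom.domRestrict_surjective ℂ i.range χ'
  refine ⟨ψ, fun m => ?_⟩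
  have h1 : χ' (i.rangeRestrict m) = χ m :=
    MonoidHom.liftOfRightInverse_comp_apply _ _ _ _ _
  rw [← h1, ← hψ]
  rfl

theorem ext_char_pow {M N : Type*} [Group M] [CommGroup N] [Finite N] (n : ℕ) (i : M →* N)
    (χ : M →* ℂˣ) (h : ∀ m, (∃ a, i m = a ^ n) → χ m = 1) :
    ∃ ψ : N →* ℂˣ, (∀ m, ψ (i m) = χ m) ∧ ∀ a, ψ a ^ n = 1 := by
  let H : Subgroup N := (powMonoidHom n : N →* N).range
  obtain ⟨ψ, hψ⟩ := ext_char ((QuotientGroup.mk' H).comp i) χ (by
    intro m hm
    apply h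
    have : i m ∈ H := (QuotientGroup.eq_one_iff _).1 hm
    obtain ⟨a, ha⟩ := this
    exact ⟨a, ha.symm⟩)
  refine ⟨ψ.comp (QuotientGroup.mk' H), hψ, fun a => ?_⟩
  rw [← map_pow]
  have : (QuotientGroup.mk' H) (a ^ n) = 1 := (QuotientGroup.eq_one_iff _).2 ⟨a, rfl⟩
  simp only [MonoidHom.comp_apply]
  rw [this, map_one]

/-- A finite cyclic group embeds in the units of `ℂ` onto the roots of unity. -/
theorem cyc_embed (C : Type*) [Group C] [Finite C] [IsCyclic C] :
    ∃ ι : C →* ℂˣ, Function.Injective ι ∧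
      ∀ (V : Type*) [Group V] (ψ : V →* ℂˣ), (∀ v, ψ v ^ Nat.card C = 1) →
        ∃ f : V →* C, ∀ v, ι (f v) = ψ v := by
  have : NeZero (Nat.card C) := ⟨Nat.card_pos.ne'⟩
  have hcard : Nat.card C = Nat.card (rootsOfUnity (Nat.card C) ℂ) := by
    rw [HasEnoughRootsOfUnity.natCard_rootsOfUnity]
  let e : C ≃* rootsOfUnity (Nat.card C) ℂ := mulEquivOfCyclicCardEq hcard
  refine ⟨(rootsOfUnity (Nat.card C) ℂ).subtype.comp e.toMonoidHom,
    Subtype.val_injective.comp e.injective, fun V _ ψ hψ => ?_⟩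
  refine ⟨e.symm.toMonoidHom.comp (ψ.codRestrict _ (fun v => (mem_rootsOfUnity _ _).2 (hψ v))),
    fun v => ?_⟩
  simp

theorem ext_cyc {M N C : Type*} [Group M] [CommGroup N] [Finite N] [Group C] [Finite C]
    [IsCyclic C] (i : M →* N) (φ : M →* C)
    (h : ∀ m, (∃ a, i m = a ^ Nat.card C) → φ m = 1) : ∃ Φ : N →* C, ∀ m, Φ (i m) = φ m := by
  obtain ⟨ι, hι, hl⟩ := cyc_embed C
  obtain ⟨ψ, h1, h2⟩ := ext_char_pow (Nat.card C) i (ι.comp φ) (fun m hm => by
    simp [h m hm])
  obtain ⟨f, hf⟩ := hl N ψ h2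
  exact ⟨f, fun m => hι (by rw [hf, h1]; rfl)⟩

/-- Homomorphisms that respect divisibility extend. -/
theorem ext_height {M N W : Type*} [Group M] [CommGroup N] [Finite N] [CommGroup W] [Finite W]
    (i : M →* N) (φ : M →* W)
    (h : ∀ n : ℕ, n ∣ Monoid.exponent W → ∀ m, (∃ a, i m = a ^ n) → ∃ u, φ m = u ^ n) :
    ∃ Φ : N →* W, ∀ m, Φ (i m) = φ m := by
  classical
  obtain ⟨ι, _, n, hn, ⟨e⟩⟩ := CommGroup.equiv_prod_multiplicative_zmod_of_finite W
  have hz : ∀ k, NeZero (n k) := fun k => NeZero.of_gt (hn k)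
  have hd : ∀ k, n k ∣ Monoid.exponent W := fun k => by
    have : n k = orderOf (e.symm <| Pi.mulSingle k <| .ofAdd 1) := by
      simpa only [MulEquiv.orderOf_eq, orderOf_piMulSingle, orderOf_ofAdd_eq_addOrderOf]
        using (ZMod.addOrderOf_one (n k)).symm
    exact this ▸ Monoid.order_dvd_exponent _
  have key : ∀ k, ∃ Φ : N →* Multiplicative (ZMod (n k)), ∀ m, Φ (i m) = e (φ m) k := by
    intro k
    have hc : Nat.card (Multiplicative (ZMod (n k))) = n k := by simp
    refine ext_cyc i ((Pi.evalMonoidHom _ k).comp (e.toMonoidHom.comp φ)) (fun m hm => ?_)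
    rw [hc] at hm
    obtain ⟨u, hu⟩ := h (n k) (hd k) m hm
    have : (e u k) ^ Nat.card (Multiplicative (ZMod (n k))) = 1 := pow_card_eq_one'
    rw [hc] at this
    simp [hu, this]
  choose Φ hΦ using key
  refine ⟨e.symm.toMonoidHom.comp (MonoidHom.pi Φ), fun m => ?_⟩
  apply e.injective
  ext k
  simp [hΦ]

/-- A character adapted to an element of maximal order. -/
theorem pure_char (W : Type*) [CommGroup W] [Finite W] :
    ∃ χ : W →* ℂˣ, ∀ (V : Type*) [Group V] (ψ : V →* ℂˣ), (∀ v, ψ v ^ Monoid.exponent W = 1) →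
      ∃ f : V →* W, ∀ v, χ (f v) = ψ v := by
  obtain ⟨w, hw⟩ := Monoid.exists_orderOf_eq_exponent (Monoid.ExponentExists.of_finite (G := W))
  obtain ⟨ι, hι, hl⟩ := cyc_embed (Subgroup.zpowers w)
  obtain ⟨χ, hχ⟩ := ext_char (Subgroup.zpowers w).subtype ι (fun m hm => by
    have : m = 1 := Subtype.ext hm
    simp [this])
  refine ⟨χ, fun V _ ψ hψ => ?_⟩
  obtain ⟨f, hf⟩ := hl V ψ (by rw [Nat.card_zpowers, hw]; exact hψ)
  exact ⟨(Subgroup.zpowers w).subtype.comp f, fun v => by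
    rw [MonoidHom.comp_apply, hχ, hf]⟩

/-- An element of maximal order can be sent to any element of smaller order. -/
theorem hom_to_zpowers {A G : Type*} [CommGroup A] [Finite A] [Group G] [Finite G] (a : A)
    (ha : orderOf a = Monoid.exponent A) (z : G) (hz : orderOf z ∣ Monoid.exponent A) :
    ∃ f : A →* G, f a = z ∧ ∀ b, f b ∈ Subgroup.zpowers z := by
  obtain ⟨d, hd⟩ := hz
  have hd0 : d ≠ 0 := by
    rintro rfl
    exact Monoid.exponent_ne_zero_of_finite (G := A) (by simpa using hd)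
  obtain ⟨Φ, hΦ⟩ := ext_cyc (C := Subgroup.zpowers z) (zpowersHom A a)
    (zpowersHom _ ⟨z, Subgroup.mem_zpowers z⟩) (by
      rintro k ⟨b, hb⟩
      rw [Nat.card_zpowers, zpowersHom_apply] at hb
      have h1 : a ^ (k.toAdd * (d : ℤ)) = 1 := by
        rw [zpow_mul, hb, zpow_natCast, ← pow_mul, ← hd, Monoid.pow_exponent_eq_one]
      have h2 := orderOf_dvd_iff_zpow_eq_one.2 h1
      rw [ha, hd, Nat.cast_mul] at h2
      have h3 : (orderOf z : ℤ) ∣ k.toAdd :=
        (mul_dvd_mul_iff_right (by exact_mod_cast hd0)).1 h2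
      apply Subtype.ext
      simpa using orderOf_dvd_iff_zpow_eq_one.1 h3)
  refine ⟨(Subgroup.zpowers z).subtype.comp Φ, ?_, fun b => (Φ b).2⟩
  have := hΦ (Multiplicative.ofAdd 1)
  simp only [zpowersHom_apply, toAdd_ofAdd, zpow_one] at this
  simp [this]

theorem mem_pow_of_hom {A W : Type*} [CommGroup A] [Finite A] [CommGroup W] [Finite W] (a : A)
    (h : ∀ f : A →* W, f a = 1) : ∃ b, a = b ^ Monoid.exponent W := by
  obtain ⟨χ, hχ⟩ := pure_char W
  have : a ∈ (powMonoidHom (Monoid.exponent W) : A →* A).range := by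
    rw [← CommGroup.forall_monoidHom_apply_eq_one_iff ℂ]
    intro ψ hψ
    obtain ⟨f, hf⟩ := hχ A ψ (fun v => by
      rw [← map_pow]; exact hψ _ ⟨v, rfl⟩)
    rw [← hf, h f, map_one]
  obtain ⟨b, hb⟩ := this
  exact ⟨b, hb.symm⟩

theorem alt_skew {V : Type*} [CommGroup V] {T : Type*} [CommGroup T] (β : V →* V →* T)
    (h : ∀ v, β v v = 1) (v w : V) : β v w = (β w v)⁻¹ := by
  have := h (v * w)
  simp only [map_mul, MonoidHom.mul_apply, h, one_mul, mul_one] at this
  exact eq_inv_of_mul_eq_one_right this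

/-- A finite abelian group with a nondegenerate alternating form is a square. -/
theorem sq_of_alt : ∀ (N : ℕ) (V : Type u) [CommGroup V] [Finite V], Nat.card V = N →
    ∀ β : V →* V →* ℂˣ, (∀ v, β v v = 1) → (∀ v, (∀ w, β v w = 1) → v = 1) →
    ∃ (B : Type u) (_ : CommGroup B), Nonempty (V ≃* B × B) := by
  intro N
  induction N using Nat.strong_induction_on with
  | _ N ih =>
  intro V _ _ hN β halt hnd
  by_cases hV : Subsingleton V
  · exact ⟨PUnit, inferInstance, ⟨by
      haveI : Unique V := uniqueOfSubsingleton 1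
      haveI : Unique (PUnit.{u + 1} × PUnit.{u + 1}) := uniqueOfSubsingleton 1
      exact MulEquiv.ofUnique⟩⟩
  obtain ⟨x, hx⟩ := Monoid.exists_orderOf_eq_exponent (Monoid.ExponentExists.of_finite (G := V))
  set n := Monoid.exponent V with hn
  have hn0 : n ≠ 0 := Monoid.exponent_ne_zero_of_finite
  have hfin : Finite (β x).range := Set.finite_range (β x) |>.to_subtype
  obtain ⟨⟨ζ, y, rfl⟩, hy⟩ := IsCyclic.exists_generator (α := (β x).range)
  have hgen : ∀ v, ∃ k : ℤ, β x v = β x y ^ k := fun v => by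
    obtain ⟨k, hk⟩ := hy ⟨β x v, v, rfl⟩
    exact ⟨k, (congrArg Subtype.val hk).symm⟩
  have hord : orderOf (β x y) = n := by
    apply Nat.dvd_antisymm
    · rw [orderOf_dvd_iff_pow_eq_one, ← map_pow, Monoid.pow_exponent_eq_one, map_one]
    · rw [← hx, orderOf_dvd_iff_pow_eq_one]
      apply hnd
      intro w
      obtain ⟨k, hk⟩ := hgen w
      rw [map_pow, MonoidHom.pow_apply, hk, ← zpow_natCast, ← zpow_mul, mul_comm, zpow_mul,
        zpow_natCast, pow_orderOf_eq_one, one_zpow]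
  have hyo : orderOf y = n := by
    apply Nat.dvd_antisymm (Monoid.order_dvd_exponent _)
    rw [← hn, ← hord, orderOf_dvd_iff_pow_eq_one, ← map_pow, pow_orderOf_eq_one, map_one]
  have hgen' : ∀ v, ∃ k : ℤ, β y v = β x y ^ k := fun v => by
    have : NeZero n := ⟨hn0⟩
    have hp : IsPrimitiveRoot (β x y) n := hord ▸ IsPrimitiveRoot.orderOf _
    have h1 : β y v ∈ rootsOfUnity n ℂ := by
      rw [mem_rootsOfUnity, ← map_pow, Monoid.pow_exponent_eq_one, map_one]
    rw [← hp.zpowers_eq] at h1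
    obtain ⟨k, hk⟩ := h1
    exact ⟨k, hk.symm⟩
  let U : Subgroup V := (β x).ker ⊓ (β y).ker
  have hyx : β y x = (β x y)⁻¹ := alt_skew β halt _ _
  let Θ : (Subgroup.zpowers x × Subgroup.zpowers y) × U →* V :=
    (((Subgroup.zpowers x).subtype.coprod (Subgroup.zpowers y).subtype)).coprod U.subtype
  have hΘ : ∀ a b u, Θ ((a, b), u) = a.1 * b.1 * u.1 := fun _ _ _ => rfl
  have hinj : Function.Injective Θ := by
    rw [injective_iff_map_eq_one]
    rintro ⟨⟨⟨a, i, rfl⟩, ⟨b, j, rfl⟩⟩, u, hu1, hu2⟩ h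
    rw [hΘ] at h
    simp only at h
    have hu1' : β x u = 1 := hu1
    have hu2' : β y u = 1 := hu2
    have h1 := congrArg (β x) h
    have h2 := congrArg (β y) h
    simp only [map_mul, map_zpow, halt, one_zpow, one_mul, mul_one, hu1', hu2', map_one, hyx,
      inv_zpow, inv_eq_one] at h1 h2
    have h3 : y ^ j = 1 := by
      rw [← orderOf_dvd_iff_zpow_eq_one, hyo, ← hord, orderOf_dvd_iff_zpow_eq_one]; exact h1
    have h4 : x ^ i = 1 := by
      rw [← orderOf_dvd_iff_zpow_eq_one, hx, ← hord, orderOf_dvd_iff_zpow_eq_one]; exact h2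
    rw [h3, h4, one_mul, one_mul] at h
    ext <;> simp [h3, h4, h]
  have hsurj : Function.Surjective Θ := by
    intro v
    obtain ⟨j, hj⟩ := hgen v
    obtain ⟨i, hi⟩ := hgen' v
    refine ⟨((⟨x ^ (-i), -i, rfl⟩, ⟨y ^ j, j, rfl⟩), ⟨v * x ^ i * y ^ (-j), ?_, ?_⟩), ?_⟩
    · change β x _ = 1
      simp [halt, hj]
    · change β y _ = 1
      simp [halt, hi, hyx]
    · rw [hΘ]
      simp only [zpow_neg]
      rw [mul_comm v, mul_assoc (x ^ i), mul_comm v, ← mul_assoc, ← mul_assoc,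
        mul_right_comm (x ^ i)⁻¹]
      simp
  let e1 := MulEquiv.ofBijective Θ ⟨hinj, hsurj⟩
  have hn1 : 1 < n := by
    have : Nontrivial V := not_subsingleton_iff_nontrivial.1 hV
    exact Monoid.one_lt_exponent
  have hlt : Nat.card U < N := by
    rw [← hN, ← Nat.card_congr e1.toEquiv, Nat.card_prod, Nat.card_prod, Nat.card_zpowers,
      Nat.card_zpowers, hx, hyo]
    have : 0 < Nat.card U := Nat.card_pos
    nlinarith [Nat.mul_le_mul hn1 hn1]
  let β' : U →* U →* ℂˣ := (MonoidHom.compHom.flip U.subtype).comp (β.comp U.subtype)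
  have hβ' : ∀ a b : U, β' a b = β a b := fun _ _ => rfl
  obtain ⟨B, _, ⟨e2⟩⟩ := ih _ hlt U rfl β' (fun v => halt v) (by
    intro u hu
    apply Subtype.ext
    apply hnd
    intro w
    obtain ⟨⟨⟨⟨a, i, rfl⟩, ⟨b, j, rfl⟩⟩, u'⟩, rfl⟩ := hsurj w
    rw [hΘ]
    have h1 : β u x = 1 := by rw [alt_skew β halt, inv_eq_one]; exact u.2.1
    have h2 : β u y = 1 := by rw [alt_skew β halt, inv_eq_one]; exact u.2.2
    have h3 : β u u' = 1 := hu u'
    simp [h1, h2, h3])
  let e3 : Subgroup.zpowers y ≃* Subgroup.zpowers x :=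
    mulEquivOfCyclicCardEq (by rw [Nat.card_zpowers, Nat.card_zpowers, hx, hyo])
  exact ⟨Subgroup.zpowers x × B, inferInstance, ⟨e1.symm.trans
    ((((MulEquiv.refl _).prodCongr e3).prodCongr e2).trans
      (MulEquiv.prodProdProdComm _ _ _ _))⟩⟩

/-- `L` is the kernel of a surjection onto a square. -/
def SqKer {A : Type u} [CommGroup A] (L : Subgroup A) : Prop :=
  ∃ (B : Type u) (_ : CommGroup B) (π : A →* B × B), Function.Surjective π ∧ π.ker = L

theorem sqKer_rad {V : Type u} [CommGroup V] [Finite V] (β : V →* V →* ℂˣ)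
    (halt : ∀ v, β v v = 1) : SqKer β.ker := by
  let γ : V →* (V ⧸ β.ker) →* ℂˣ :=
    { toFun := fun v => QuotientGroup.lift β.ker (β v) (fun r hr => by
        have : β r = 1 := hr
        rw [MonoidHom.mem_ker, alt_skew β halt, this]; simp)
      map_one' := by ext; simp
      map_mul' := fun a b => by ext; simp }
  have hγ : ∀ v w : V, γ v (w : V ⧸ β.ker) = β v w := fun _ _ => rfl
  let δ : (V ⧸ β.ker) →* (V ⧸ β.ker) →* ℂˣ := QuotientGroup.lift β.ker γ (fun r hr => by
    have : β r = 1 := hr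
    rw [MonoidHom.mem_ker]
    ext w
    simp [hγ, this])
  have hδ : ∀ v w : V, δ (v : V ⧸ β.ker) (w : V ⧸ β.ker) = β v w := fun _ _ => rfl
  obtain ⟨B, _, ⟨e⟩⟩ := sq_of_alt _ (V ⧸ β.ker) rfl δ (fun v => by
    obtain ⟨v, rfl⟩ := QuotientGroup.mk_surjective v
    rw [hδ, halt]) (fun v hv => by
    obtain ⟨v, rfl⟩ := QuotientGroup.mk_surjective v
    rw [QuotientGroup.eq_one_iff, MonoidHom.mem_ker]
    ext w
    simpa [hδ] using hv w)
  refine ⟨B, inferInstance, e.toMonoidHom.comp (QuotientGroup.mk' _),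
    e.surjective.comp (QuotientGroup.mk'_surjective _), ?_⟩
  ext v
  simp [MonoidHom.mem_ker]

theorem SqKer.index_sq {A : Type u} [CommGroup A] {L : Subgroup A} (h : SqKer L) (n : ℕ) :
    ∃ s : ℕ, (L ⊔ (powMonoidHom n : A →* A).range).index = s * s := by
  obtain ⟨B, _, π, hπ, rfl⟩ := h
  let P : Subgroup B := (powMonoidHom n : B →* B).range
  refine ⟨P.index, ?_⟩
  rw [← Subgroup.index_prod, ← Subgroup.index_comap_of_surjective _ hπ]
  congr 1
  ext a
  rw [Subgroup.mem_sup, Subgroup.mem_comap, Subgroup.mem_prod]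
  constructor
  · rintro ⟨r, hr, _, ⟨b, rfl⟩, rfl⟩
    have hr' : π r = 1 := hr
    rw [map_mul, hr', one_mul, powMonoidHom_apply, map_pow]
    exact ⟨⟨(π b).1, rfl⟩, ⟨(π b).2, rfl⟩⟩
  · rintro ⟨⟨b1, h1⟩, ⟨b2, h2⟩⟩
    obtain ⟨b, hb⟩ := hπ (b1, b2)
    refine ⟨a * (b ^ n)⁻¹, ?_, b ^ n, ⟨b, rfl⟩, by simp⟩
    rw [MonoidHom.mem_ker, map_mul, map_inv, map_pow, hb, mul_inv_eq_one]
    exact Prod.ext h1.symm h2.symm

/-- Two kernels of surjections onto squares with cyclic quotient coincide. -/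
theorem le_of_sqKer {p : ℕ} [hp : Fact p.Prime] {A : Type u} [CommGroup A] [Finite A]
    (hA : IsPGroup p A) {K R : Subgroup A} (hK : SqKer K) (hR : SqKer R) (hKR : K ≤ R)
    (ρ : A) (hρ : ρ ∈ R) (hcyc : ∀ r ∈ R, ∃ k : ℤ, r * (ρ ^ k)⁻¹ ∈ K) : R ≤ K := by
  have key : ∀ k : ℕ, ρ ∈ K ⊔ (powMonoidHom (p ^ k) : A →* A).range := by
    intro k
    induction k with
    | zero => exact Subgroup.mem_sup_right ⟨ρ, by simp⟩
    | succ k ih =>
      set K' := K ⊔ (powMonoidHom (p ^ (k + 1)) : A →* A).range with hK'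
      have h1 : ρ ^ p ∈ K' := by
        obtain ⟨κ, hκ, _, ⟨b, rfl⟩, h⟩ := Subgroup.mem_sup.1 ih
        rw [← h, mul_pow]
        refine K'.mul_mem (Subgroup.mem_sup_left (K.pow_mem hκ p)) (Subgroup.mem_sup_right ⟨b, ?_⟩)
        simp [pow_succ, pow_mul]
      have h2 : R ⊔ (powMonoidHom (p ^ (k + 1)) : A →* A).range =
          (Subgroup.zpowers (ρ : A ⧸ K')).comap (QuotientGroup.mk' K') := by
        apply le_antisymm
        · refine sup_le (fun r hr => ?_) (fun r hr => ?_)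
          · obtain ⟨j, hj⟩ := hcyc r hr
            refine ⟨j, ?_⟩
            have : ((r * (ρ ^ j)⁻¹ : A) : A ⧸ K') = 1 :=
              (QuotientGroup.eq_one_iff _).2 (Subgroup.mem_sup_left hj)
            rw [QuotientGroup.mk_mul, QuotientGroup.mk_inv, mul_inv_eq_one] at this
            simpa using this.symm
          · have : ((r : A) : A ⧸ K') = 1 :=
              (QuotientGroup.eq_one_iff _).2 (Subgroup.mem_sup_right hr)
            rw [Subgroup.mem_comap, QuotientGroup.mk'_apply, this]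
            exact Subgroup.one_mem _
        · rintro a ⟨j, hj⟩
          have h3 : (ρ ^ j)⁻¹ * a ∈ K' := by
            rw [← QuotientGroup.eq]
            simpa using hj
          have h4 : K' ≤ R ⊔ (powMonoidHom (p ^ (k + 1)) : A →* A).range :=
            sup_le_sup_right hKR _
          have h5 := Subgroup.mul_mem _ (Subgroup.mem_sup_left (R.zpow_mem hρ j)) (h4 h3)
          simpa using h5
      obtain ⟨s, hs⟩ := hK.index_sq (p ^ (k + 1))
      obtain ⟨t, ht⟩ := hR.index_sq (p ^ (k + 1))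
      rw [h2, Subgroup.index_comap_of_surjective _ (QuotientGroup.mk'_surjective _)] at ht
      have h6 := (Subgroup.zpowers (ρ : A ⧸ K')).card_mul_index
      rw [ht, Nat.card_zpowers] at h6
      have h7 : Nat.card (A ⧸ K') = s * s := hs
      have h8 : orderOf (ρ : A ⧸ K') ∣ p := by
        rw [orderOf_dvd_iff_pow_eq_one, ← QuotientGroup.mk_pow, QuotientGroup.eq_one_iff]
        exact h1
      rcases (Nat.dvd_prime hp.out).1 h8 with h9 | h9
      · exact (QuotientGroup.eq_one_iff _).1 (orderOf_eq_one_iff.1 h9)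
      · exfalso
        rw [h9, h7] at h6
        have hs0 : s ≠ 0 := by
          rintro rfl
          have : 0 < Nat.card (A ⧸ K') := Nat.card_pos
          omega
        have ht0 : t ≠ 0 := by
          rintro rfl
          exact hs0 (by simpa using h6.symm)
        have := congrArg (padicValNat p) h6
        rw [padicValNat.mul hp.out.ne_zero (mul_ne_zero ht0 ht0), padicValNat.mul ht0 ht0,
          padicValNat.mul hs0 hs0, padicValNat_self] at this
        omega
  have hρK : ρ ∈ K := by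
    obtain ⟨k, hk⟩ := hA.exists_card_eq
    obtain ⟨κ, hκ, _, ⟨b, rfl⟩, h⟩ := Subgroup.mem_sup.1 (key k)
    rw [powMonoidHom_apply, ← hk, pow_card_eq_one', mul_one] at h
    exact h ▸ hκ
  intro r hr
  obtain ⟨j, hj⟩ := hcyc r hr
  simpa using K.mul_mem hj (K.zpow_mem hρK j)

/-- An endomorphism of a square that maps each element into the subgroup it generates is a
power map. -/
theorem scalar_of_sq {A B : Type*} [CommGroup A] [Finite A] [CommGroup B] (e : A ≃* B × B)
    (α : A →* A) (h : ∀ a, α a ∈ Subgroup.zpowers a) : ∃ l : ℕ, ∀ a, α a = a ^ l := by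
  have : Finite (B × B) := Finite.of_equiv _ e.toEquiv
  have : Finite B := Finite.of_injective (fun b : B => ((b, 1) : B × B))
    (fun a b hab => congrArg Prod.fst hab)
  obtain ⟨b0, hb0⟩ := Monoid.exists_orderOf_eq_exponent (Monoid.ExponentExists.of_finite (G := B))
  let γ : B × B →* B × B := e.toMonoidHom.comp (α.comp e.symm.toMonoidHom)
  have hγ : ∀ v, ∃ k : ℕ, γ v = v ^ k := fun v => by
    obtain ⟨k, hk⟩ := (mem_powers_iff_mem_zpowers.2 (h (e.symm v)))
    refine ⟨k, ?_⟩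
    have hk' : e.symm v ^ k = α (e.symm v) := hk
    simp [γ, ← hk']
  have hmod : ∀ i j : ℕ, b0 ^ i = b0 ^ j → ∀ b : B, b ^ i = b ^ j := fun i j hij b => by
    rw [pow_eq_pow_iff_modEq] at hij ⊢
    rw [hb0] at hij
    exact hij.of_dvd (Monoid.order_dvd_exponent b)
  obtain ⟨l, hl⟩ := hγ (1, b0)
  have h1 : ∀ b, γ (b, 1) = (b, 1) ^ l := fun b => by
    obtain ⟨ν, hν⟩ := hγ (b, 1)
    obtain ⟨μ, hμ⟩ := hγ ((b, 1) * (1, b0))
    rw [map_mul, hν, hl] at hμ
    have e1 := congrArg Prod.fst hμ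
    have e2 := congrArg Prod.snd hμ
    simp only [Prod.mk_mul_mk, Prod.pow_mk, one_pow, mul_one, one_mul] at e1 e2
    rw [hν]
    ext
    · simp [e1, hmod _ _ e2 b]
    · simp
  have h2 : ∀ b, γ (1, b) = (1, b) ^ l := fun b => by
    obtain ⟨ν, hν⟩ := hγ (1, b)
    obtain ⟨μ, hμ⟩ := hγ ((b0, 1) * (1, b))
    rw [map_mul, hν, h1] at hμ
    have e1 := congrArg Prod.fst hμ
    have e2 := congrArg Prod.snd hμ
    simp only [Prod.mk_mul_mk, Prod.pow_mk, one_pow, mul_one, one_mul] at e1 e2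
    rw [hν]
    ext
    · simp
    · simp [e2, hmod _ _ e1 b]
  refine ⟨l, fun a => ?_⟩
  have h3 : γ (e a) = (e a) ^ l := by
    have : e a = ((e a).1, 1) * (1, (e a).2) := by simp
    rw [this, map_mul, h1, h2, mul_pow]
  apply e.injective
  simpa [γ] using h3

end Pool.Agent.P.MP_0b48ca_al.Crit
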