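import Pool.Agent.P.MP_0b48ca_al.Crit.Ab

/-!
Groups of nilpotency class two: the commutator form, central automorphisms and power
automorphisms.
-/

namespace Pool.Agent.P.MP_0b48ca_al.Crit

open Abelianization
open scoped commutatorElement

universe u

variable {G : Type u} [Group G]

/-- Class at most two. -/
class Two (G : Type u) [Group G] : Prop where
  le : commutator G ≤ Subgroup.center G

theorem comm_mem (x y : G) : ⁅x, y⁆ ∈ commutator G :=
  Subgroup.commutator_mem_commutator (Subgroup.mem_top x) (Subgroup.mem_top y)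

theorem of_eq_one {x : G} : of x = 1 ↔ x ∈ commutator G := QuotientGroup.eq_one_iff x

theorem of_surj : Function.Surjective (of : G → Abelianization G) := QuotientGroup.mk_surjective

instance [Finite G] : Finite (Abelianization G) := Finite.of_surjective _ of_surj

section Two

variable [Two G]

theorem cen {w : G} (hw : w ∈ commutator G) (g : G) : g * w = w * g :=
  Subgroup.mem_center_iff.1 (Two.le hw) g

instance : CommGroup (commutator G) :=
  { (inferInstance : Group (commutator G)) with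
    mul_comm := fun a b => Subtype.ext (cen b.2 a) }

theorem comm_mul_right (x y z : G) : ⁅x, y * z⁆ = ⁅x, y⁆ * ⁅x, z⁆ := by
  have h1 : ⁅x, y * z⁆ = ⁅x, y⁆ * (y * ⁅x, z⁆) * y⁻¹ := by
    simp only [commutatorElement_def]; group
  rw [h1, cen (comm_mem x z) y]; group

theorem comm_mul_left (x y z : G) : ⁅x * y, z⁆ = ⁅x, z⁆ * ⁅y, z⁆ := by
  have h1 : ⁅x * y, z⁆ = (x * ⁅y, z⁆) * x⁻¹ * ⁅x, z⁆ := by
    simp only [commutatorElement_def]; group
  rw [h1, cen (comm_mem y z) x, mul_inv_cancel_right, cen (comm_mem x z)]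

/-- The commutator map in the second variable. -/
def cm (x : G) : G →* commutator G where
  toFun y := ⟨⁅x, y⁆, comm_mem x y⟩
  map_one' := Subtype.ext (by simp)
  map_mul' y z := Subtype.ext (comm_mul_right x y z)

/-- The commutator form on the abelianization. -/
def om (G : Type u) [Group G] [Two G] :
    Abelianization G →* Abelianization G →* commutator G :=
  lift
    { toFun := fun x => lift (cm x)
      map_one' := by ext y; simp [cm]
      map_mul' := fun x y => by ext z; simp [cm, comm_mul_left] }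

@[simp] theorem om_of (x y : G) : (om G (of x) (of y) : G) = ⁅x, y⁆ := rfl

theorem om_self (a : Abelianization G) : om G a a = 1 := by
  obtain ⟨x, rfl⟩ := of_surj a
  exact Subtype.ext (by simp)

theorem comm_pow_left (x y : G) (n : ℕ) : ⁅x ^ n, y⁆ = ⁅x, y⁆ ^ n := by
  rw [← om_of, ← om_of, map_pow, map_pow, MonoidHom.pow_apply]; rfl

theorem pow_mem_center (x : G) : x ^ Monoid.exponent (commutator G) ∈ Subgroup.center G := by
  rw [Subgroup.mem_center_iff]
  intro g
  have : ⁅x ^ Monoid.exponent (commutator G), g⁆ = 1 := by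
    rw [comm_pow_left]
    exact congrArg Subtype.val (Monoid.pow_exponent_eq_one (⟨_, comm_mem x g⟩ : commutator G))
  exact (commutatorElement_eq_one_iff_mul_comm.1 this).symm

omit [Two G] in
theorem hom_ext_comm {H : Type*} [Group H] (f g : commutator G →* H)
    (h : ∀ x y, f ⟨⁅x, y⁆, comm_mem x y⟩ = g ⟨⁅x, y⁆, comm_mem x y⟩) : f = g := by
  ext ⟨w, hw⟩
  have hw' := hw
  rw [commutator_eq_closure] at hw'
  induction hw' using Subgroup.closure_induction with
  | mem w h1 => obtain ⟨x, y, rfl⟩ := h1; exact h x y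
  | one => exact (map_one f).trans (map_one g).symm
  | mul a b ha hb iha ihb =>
    rw [← commutator_eq_closure] at ha hb
    have : (⟨a * b, hw⟩ : commutator G) = ⟨a, ha⟩ * ⟨b, hb⟩ := rfl
    rw [this, map_mul, map_mul, iha ha, ihb hb]
  | inv a ha iha =>
    rw [← commutator_eq_closure] at ha
    have : (⟨a⁻¹, hw⟩ : commutator G) = ⟨a, ha⟩⁻¹ := rfl
    rw [this, map_inv, map_inv, iha ha]

theorem exp_dvd_of_comm {n : ℕ} (h : ∀ x y : G, ⁅x, y⁆ ^ n = 1) :
    Monoid.exponent (commutator G) ∣ n := by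
  have := hom_ext_comm (powMonoidHom n : commutator G →* commutator G) 1
    (fun x y => Subtype.ext (h x y))
  exact Monoid.exponent_dvd_of_forall_pow_eq_one fun w => DFunLike.congr_fun this w

theorem scal_comm (α : G →* G) (l : ℕ) (h : ∀ x, of (α x) = of x ^ l) (w : G)
    (hw : w ∈ commutator G) : α w = w ^ (l * l) := by
  have := hom_ext_comm (α.comp (commutator G).subtype)
    ((commutator G).subtype.comp (powMonoidHom (l * l))) (fun x y => by
      change α ⁅x, y⁆ = ⁅x, y⁆ ^ (l * l)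
      rw [map_commutatorElement, ← om_of, ← om_of, h, h]
      simp only [map_pow, MonoidHom.pow_apply, ← pow_mul]
      rfl)
  exact DFunLike.congr_fun this ⟨w, hw⟩

theorem mul_pow_two (x y : G) (n : ℕ) :
    (x * y) ^ n = x ^ n * y ^ n * ⁅y, x⁆ ^ n.choose 2 := by
  induction n with
  | zero => simp
  | succ n ih =>
    have hc : ⁅y, x⁆ ^ n.choose 2 ∈ commutator G := Subgroup.pow_mem _ (comm_mem _ _) _
    have hc' : ⁅y, x⁆ ^ n ∈ commutator G := Subgroup.pow_mem _ (comm_mem _ _) _
    have h1 : y ^ n * x = ⁅y, x⁆ ^ n * (x * y ^ n) := by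
      rw [← comm_pow_left, commutatorElement_def]; group
    have h2 : (n + 1).choose 2 = n + n.choose 2 := by
      rw [Nat.choose_succ_succ' n 1, Nat.choose_one_right]
    calc (x * y) ^ (n + 1) = x ^ n * y ^ n * (⁅y, x⁆ ^ n.choose 2 * (x * y)) := by
          rw [pow_succ, ih, mul_assoc]
      _ = x ^ n * (y ^ n * x) * y * ⁅y, x⁆ ^ n.choose 2 := by
          rw [← cen hc]; group
      _ = x ^ n * (x * y ^ n) * (⁅y, x⁆ ^ n * y) * ⁅y, x⁆ ^ n.choose 2 := by
          rw [h1, ← cen hc']; group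
      _ = x ^ (n + 1) * y ^ (n + 1) * ⁅y, x⁆ ^ (n + 1).choose 2 := by
          rw [← cen hc', h2, pow_add, pow_succ, pow_succ]; group

theorem isConj_iff_comm (x w : G) : IsConj x (x * w) ↔ ∃ y, w = ⁅x, y⁆ := by
  have h : ∀ c : G, c * x * c⁻¹ = x * ⁅x, c⁻¹⁆ := fun c => by
    have h1 : c * x * c⁻¹ = x * (x⁻¹ * c * ⁅x, c⁻¹⁆) * (x⁻¹ * c)⁻¹ := by
      simp only [commutatorElement_def]; group
    rw [h1, cen (comm_mem x c⁻¹)]; group
  rw [isConj_iff]
  constructor
  · rintro ⟨c, hc⟩
    exact ⟨c⁻¹, (mul_left_cancel ((h c).symm.trans hc)).symm⟩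
  · rintro ⟨y, rfl⟩
    exact ⟨y⁻¹, by rw [h, inv_inv]⟩

end Two

/-- Central automorphisms from nilpotent homomorphisms to the centre. -/
theorem central_aut [Finite G] (f : G →* G) (hz : ∀ x, f x ∈ Subgroup.center G)
    (h3 : ∀ x, f (f (f x)) = 1) : ∃ α : G ≃* G, ∀ x, α x = x * f x := by
  let φ : G →* G :=
    { toFun := fun x => x * f x
      map_one' := by simp
      map_mul' := fun x y => by
        rw [map_mul, mul_assoc, mul_assoc, ← mul_assoc y, Subgroup.mem_center_iff.1 (hz x) y,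
          mul_assoc] }
  have hinj : Function.Injective φ := by
    rw [injective_iff_map_eq_one]
    intro x hx
    have h1 : x = (f x)⁻¹ := eq_inv_of_mul_eq_one_left hx
    have h2 : f (f x) = 1 := by
      have := congrArg (fun t => f (f t)) h1
      simpa [h3] using this
    have h4 : f x = 1 := by
      have := congrArg f h1
      simpa [h2] using this
    simpa [h4] using h1
  exact ⟨MulEquiv.ofBijective φ (Finite.injective_iff_bijective.1 hinj), fun x => rfl⟩

/-- A central extension of `G` by its commutator subgroup. -/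
@[ext] structure Ex (G : Type u) [Group G] (c : ℕ) where
  g : G
  a : commutator G

namespace Ex

variable [Two G] {c : ℕ}

instance : Mul (Ex G c) := ⟨fun x y => ⟨x.g * y.g, x.a * y.a * om G (of x.g) (of y.g) ^ c⟩⟩
instance : One (Ex G c) := ⟨⟨1, 1⟩⟩
instance : Inv (Ex G c) := ⟨fun x => ⟨x.g⁻¹, x.a⁻¹⟩⟩

@[simp] theorem mul_g (x y : Ex G c) : (x * y).g = x.g * y.g := rfl
@[simp] theorem mul_a (x y : Ex G c) : (x * y).a = x.a * y.a * om G (of x.g) (of y.g) ^ c := rfl
omit [Two G] in
@[simp] theorem one_g : (1 : Ex G c).g = 1 := rfl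
omit [Two G] in
@[simp] theorem one_a : (1 : Ex G c).a = 1 := rfl
omit [Two G] in
@[simp] theorem inv_g (x : Ex G c) : (x⁻¹).g = x.g⁻¹ := rfl
omit [Two G] in
@[simp] theorem inv_a (x : Ex G c) : (x⁻¹).a = x.a⁻¹ := rfl

instance : Group (Ex G c) := Group.ofLeftAxioms
  (fun x y z => by
    apply Ex.ext
    · simp [mul_assoc]
    · simp only [mul_a, mul_g, map_mul, MonoidHom.mul_apply, mul_pow]
      simp only [mul_comm, mul_left_comm, mul_assoc])
  (fun x => by apply Ex.ext <;> simp)
  (fun x => by apply Ex.ext <;> simp [om_self])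

instance [Finite G] : Finite (Ex G c) :=
  Finite.of_injective (fun x : Ex G c => (x.g, x.a))
    (fun _ _ h => Ex.ext (congrArg Prod.fst h) (congrArg Prod.snd h))

theorem pow_eq (x : Ex G c) (n : ℕ) : x ^ n = ⟨x.g ^ n, x.a ^ n⟩ := by
  induction n with
  | zero => rw [pow_zero, pow_zero, pow_zero]; rfl
  | succ n ih =>
    rw [pow_succ, ih]
    apply Ex.ext
    · simp [pow_succ]
    · simp [pow_succ, om_self]

/-- The kernel of the extension. -/
def inr (G : Type u) [Group G] [Two G] (c : ℕ) : commutator G →* Ex G c where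
  toFun a := ⟨1, a⟩
  map_one' := rfl
  map_mul' a b := by apply Ex.ext <;> simp

/-- A subgroup that contains the commutator subgroup of the extension. -/
def D (G : Type u) [Group G] [Two G] (c : ℕ) : Subgroup (Ex G c) where
  carrier := {x | ∃ h : x.g ∈ commutator G, x.a = ⟨x.g, h⟩ ^ (2 * c)}
  mul_mem' := by
    rintro x y ⟨hx, hx'⟩ ⟨hy, hy'⟩
    refine ⟨Subgroup.mul_mem _ hx hy, ?_⟩
    rw [mul_a, hx', hy', of_eq_one.2 hx, map_one, MonoidHom.one_apply, one_pow, mul_one,
      ← mul_pow]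
    rfl
  one_mem' := ⟨Subgroup.one_mem _, (one_pow _).symm⟩
  inv_mem' := by
    rintro x ⟨hx, hx'⟩
    refine ⟨Subgroup.inv_mem _ hx, ?_⟩
    rw [inv_a, hx', ← inv_pow]
    rfl

theorem commutator_le : commutator (Ex G c) ≤ D G c := by
  rw [commutator_eq_closure, Subgroup.closure_le]
  rintro _ ⟨x, y, rfl⟩
  refine ⟨comm_mem x.g y.g, ?_⟩
  have h1 : (⟨(⁅x, y⁆ : Ex G c).g, comm_mem x.g y.g⟩ : commutator G) =
      om G (of x.g) (of y.g) := rfl
  rw [h1]
  simp only [commutatorElement_def, mul_a, mul_g, inv_a, inv_g, map_mul, map_inv,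
    MonoidHom.mul_apply, MonoidHom.inv_apply, om_self, inv_inv, one_mul, mul_one, inv_one,
    alt_skew (om G) om_self (of y.g) (of x.g), mul_inv_cancel, one_pow]
  rw [two_mul, pow_add]
  generalize om G (of x.g) (of y.g) ^ c = t
  calc x.a * y.a * t * x.a⁻¹ * t * y.a⁻¹ = (x.a * x.a⁻¹) * (y.a * y.a⁻¹) * (t * t) := by
        simp only [mul_comm, mul_left_comm, mul_assoc]
    _ = t * t := by simp

end Ex

theorem exists_pow_hom [Finite G] [Two G] (l : ℕ)
    (h : ∀ n : ℕ, n ∣ Monoid.exponent (commutator G) → ∀ (x : G) (hx : x ^ n ∈ commutator G),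
      ∃ u : commutator G, (⟨x ^ n, hx⟩ : commutator G) ^ (2 * l.choose 2) = u ^ n) :
    ∃ α : G →* G, ∀ x, of (α x) = of x ^ l := by
  obtain ⟨Φ, hΦ⟩ := ext_height (of.comp (Ex.inr G (l.choose 2))) (MonoidHom.id _) (by
    rintro n hn w ⟨a, ha⟩
    obtain ⟨e, rfl⟩ := of_surj a
    have h1 : (Ex.inr G (l.choose 2) w)⁻¹ * e ^ n ∈ commutator _ := by
      rw [← of_eq_one, map_mul, map_inv, map_pow, ← ha]; simp
    rw [Ex.pow_eq] at h1
    obtain ⟨h2, h3⟩ := Ex.commutator_le h1
    simp only [Ex.inr, MonoidHom.coe_mk, OneHom.coe_mk, Ex.mul_g, Ex.inv_g, inv_one, one_mul,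
      Ex.mul_a, Ex.inv_a, map_one, MonoidHom.one_apply, one_pow, mul_one] at h2 h3
    obtain ⟨u, hu⟩ := h n hn e.g h2
    refine ⟨e.a * u⁻¹, ?_⟩
    rw [hu] at h3
    rw [mul_pow, inv_pow, ← h3]
    simp)
  let θ : G → commutator G := fun x => (Φ (of ⟨x, 1⟩))⁻¹
  have hθ : ∀ x y, θ (x * y) = θ x * θ y * om G (of x) (of y) ^ l.choose 2 := fun x y => by
    have h1 : (⟨x, 1⟩ * ⟨y, 1⟩ : Ex G (l.choose 2)) =
        ⟨x * y, 1⟩ * Ex.inr G _ (om G (of x) (of y) ^ l.choose 2) := by
      apply Ex.ext <;> simp [Ex.inr]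
    have h2 := congrArg (fun t => Φ (of t)) h1
    have h3 := hΦ (om G (of x) (of y) ^ l.choose 2)
    simp only [MonoidHom.comp_apply, MonoidHom.id_apply] at h3
    simp only [map_mul, h3] at h2
    simp only [θ]
    rw [← mul_inv, h2]
    simp
  refine ⟨MonoidHom.mk' (fun x => x ^ l * θ x) (fun x y => ?_), fun x => ?_⟩
  · have h1 : ⁅y, x⁆ ^ l.choose 2 * ⁅x, y⁆ ^ l.choose 2 = 1 := by
      rw [← commutatorElement_inv x y, inv_pow, inv_mul_cancel]
    rw [mul_pow_two, hθ]
    simp only [Subgroup.coe_mul, Subgroup.coe_pow, om_of]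
    rw [cen (Subgroup.pow_mem _ (comm_mem x y) _), ← mul_assoc, mul_assoc _ (⁅y, x⁆ ^ _), h1,
      mul_one, mul_assoc, mul_assoc, ← mul_assoc (θ x : G) (y ^ l),
      ← cen (θ x).2 (y ^ l), mul_assoc]
  · simp [of_eq_one.2 (θ x).2]

end Pool.Agent.P.MP_0b48ca_al.Crit
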