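import Pool.Agent.P.MP_0b48ca_al.Crit.Grp

/-!
The criterion for `Aut G = Aut_c G` in class two.
-/

namespace Pool.Agent.P.MP_0b48ca_al.Crit

open Abelianization
open scoped commutatorElement

universe u

variable {G : Type u} [Group G]

/-- All automorphisms preserve conjugacy classes. -/
def CP (G : Type u) [Group G] : Prop := ∀ α : G ≃* G, ∀ x, IsConj x (α x)

/-- All normal subgroups are characteristic. -/
def NC (G : Type u) [Group G] : Prop := ∀ N : Subgroup G, N.Normal → N.Characteristic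

/-- The abelianization is a square. -/
def Sq (G : Type u) [Group G] : Prop :=
  ∃ (B : Type u) (_ : CommGroup B), Nonempty (Abelianization G ≃* B × B)

/-- All values of homomorphisms to the commutator subgroup are commutators. -/
def HomCam (G : Type u) [Group G] : Prop :=
  ∀ (f : Abelianization G →* commutator G) (x : G), ∃ y, (f (of x) : G) = ⁅x, y⁆

/-- The height condition. -/
def Height (G : Type u) [Group G] : Prop :=
  ∀ x : G, ∀ w ∈ commutator G,
    (∀ k n : ℕ, (∃ g : G, x ^ k * (g ^ n)⁻¹ ∈ commutator G) →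
      ∃ u ∈ commutator G, w ^ k = u ^ n) → ∃ y, w = ⁅x, y⁆

theorem char_mem {N : Subgroup G} (h : N.Characteristic) (α : G ≃* G) {x : G} (hx : x ∈ N) :
    α x ∈ N := by
  have := Subgroup.characteristic_iff_le_comap.1 h α hx
  exact this

theorem nc_of_cp (h : CP G) : NC G := by
  intro N hN
  rw [Subgroup.characteristic_iff_le_comap]
  intro α x hx
  obtain ⟨c, hc⟩ := isConj_iff.1 (h α x)
  change α x ∈ N
  rw [← hc]
  exact hN.conj_mem x hx c

variable [Finite G] [Two G]

theorem aut_of_hom (f : Abelianization G →* commutator G) :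
    ∃ α : G ≃* G, ∀ x, α x = x * f (of x) :=
  central_aut ((commutator G).subtype.comp (f.comp of)) (fun x => Two.le (f (of x)).2)
    (fun x => by
      have : ∀ y, of (((commutator G).subtype.comp (f.comp of)) y) = 1 := fun y =>
        of_eq_one.2 (f (of y)).2
      rw [MonoidHom.comp_apply, MonoidHom.comp_apply, this, map_one, map_one])

theorem homCam_of_cp (h : CP G) : HomCam G := by
  intro f x
  obtain ⟨α, hα⟩ := aut_of_hom f
  have := h α x
  rw [hα] at this
  exact (isConj_iff_comm _ _).1 this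

theorem center_pow (h : HomCam G) {z : G} (hz : z ∈ Subgroup.center G) :
    ∃ g, of z = of g ^ Monoid.exponent (commutator G) := by
  obtain ⟨b, hb⟩ := mem_pow_of_hom (W := commutator G) (of z) (fun f => by
    obtain ⟨y, hy⟩ := h f z
    apply Subtype.ext
    rw [hy]
    exact commutatorElement_eq_one_iff_mul_comm.2 (Subgroup.mem_center_iff.1 hz y).symm)
  obtain ⟨g, rfl⟩ := of_surj b
  exact ⟨g, hb⟩

variable {p : ℕ} [hp : Fact p.Prime]

omit [Two G] in
theorem exp_ppow {H : Type*} [Group H] [Finite H] (h : IsPGroup p H) :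
    ∃ k, Monoid.exponent H = p ^ k := by
  obtain ⟨k, hk⟩ := h.exists_card_eq
  obtain ⟨j, _, hj⟩ := (Nat.dvd_prime_pow hp.out).1 (hk ▸ Group.exponent_dvd_nat_card (G := H))
  exact ⟨j, hj⟩

omit [Two G] in
theorem exp_comm (hG : IsPGroup p G) (h1 : commutator G ≠ ⊥) :
    ∃ m, Monoid.exponent (commutator G) = p ^ (m + 1) := by
  obtain ⟨k, hk⟩ := exp_ppow (hG.to_subgroup (commutator G))
  have : Nontrivial (commutator G) := (Subgroup.nontrivial_iff_ne_bot _).2 h1
  have h2 : 1 < Monoid.exponent (commutator G) := Monoid.one_lt_exponent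
  obtain _ | k := k
  · rw [hk] at h2; simp at h2
  · exact ⟨k, hk⟩

omit [Finite G] [Two G] hp in
theorem pA (hG : IsPGroup p G) : IsPGroup p (Abelianization G) := hG.of_surjective of of_surj

omit [Two G] in
theorem dvd_exp_of_pow_ne (hG : IsPGroup p G) {m : ℕ} {a : Abelianization G}
    (ha : a ^ p ^ m ≠ 1) : p ^ (m + 1) ∣ Monoid.exponent (Abelianization G) := by
  obtain ⟨k, hk⟩ := exp_ppow (pA hG)
  rw [hk]
  apply pow_dvd_pow
  by_contra hlt
  apply ha
  have : Monoid.exponent (Abelianization G) ∣ p ^ m := by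
    rw [hk]; exact pow_dvd_pow _ (by omega)
  exact Monoid.exponent_dvd_iff_forall_pow_eq_one.1 this a

theorem center_eq_of_cp (hG : IsPGroup p G) (h1 : commutator G ≠ ⊥) (h : CP G) :
    Subgroup.center G = commutator G := by
  classical
  refine le_antisymm (fun z hz => ?_) Two.le
  by_contra hzW
  obtain ⟨m, hm⟩ := exp_comm hG h1
  have hex : ∃ j, z ^ p ^ j ∈ commutator G := by
    obtain ⟨j, hj⟩ := hG z
    exact ⟨j, hj ▸ Subgroup.one_mem _⟩
  obtain ⟨j, hj⟩ : ∃ j, Nat.find hex = j + 1 := by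
    refine Nat.exists_eq_succ_of_ne_zero fun h0 => hzW ?_
    have := Nat.find_spec hex
    simpa [h0] using this
  set z' := z ^ p ^ j with hz'
  have hz1 : z' ∉ commutator G := Nat.find_min hex (by omega)
  have hz2 : z' ^ p ∈ commutator G := by
    have := Nat.find_spec hex
    rwa [hj, pow_succ, pow_mul] at this
  have hz3 : z' ∈ Subgroup.center G := Subgroup.pow_mem _ hz _
  have hz4 : orderOf z' ∣ p ^ (m + 1 + 1) := by
    rw [orderOf_dvd_iff_pow_eq_one, pow_succ', pow_mul, ← hm]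
    exact congrArg Subtype.val (Monoid.pow_exponent_eq_one (⟨_, hz2⟩ : commutator G))
  obtain ⟨g, hg⟩ := center_pow (homCam_of_cp h) hz
  have hd : p ^ (m + 1 + 1) ∣ Monoid.exponent (Abelianization G) :=
    dvd_exp_of_pow_ne hG (a := of g) (by rw [← hm, ← hg]; exact fun h0 => hzW (of_eq_one.1 h0))
  obtain ⟨a, ha⟩ := Monoid.exists_orderOf_eq_exponent
    (Monoid.ExponentExists.of_finite (G := Abelianization G))
  obtain ⟨f, hf1, hf2⟩ := hom_to_zpowers a ha z' (hz4.trans hd)
  have hfc : ∀ b, f b ∈ Subgroup.center G := fun b =>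
    (Subgroup.zpowers_le.2 hz3) (hf2 b)
  obtain ⟨α, hα⟩ := central_aut (f.comp of) (fun x => hfc _) (fun x => by
    obtain ⟨g', hg'⟩ := center_pow (homCam_of_cp h) (hfc (of x))
    obtain ⟨k, hk⟩ := hf2 (of g')
    have h5 : f (of (f (of x))) ∈ commutator G := by
      rw [hg', map_pow, ← hk, hm, pow_succ', pow_mul]
      refine Subgroup.pow_mem _ ?_ _
      rw [← zpow_natCast, ← zpow_mul, mul_comm, zpow_mul, zpow_natCast]
      exact Subgroup.zpow_mem _ hz2 _
    simp only [MonoidHom.comp_apply]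
    rw [of_eq_one.2 h5, map_one])
  obtain ⟨x, rfl⟩ := of_surj a
  have h6 := h α x
  rw [hα, MonoidHom.comp_apply, hf1] at h6
  obtain ⟨y, hy⟩ := (isConj_iff_comm _ _).1 h6
  exact hz1 (hy ▸ comm_mem x y)

omit [Finite G] in
theorem ab_pow (hZ : Subgroup.center G = commutator G) (a : Abelianization G) :
    a ^ Monoid.exponent (commutator G) = 1 := by
  obtain ⟨x, rfl⟩ := of_surj a
  rw [← map_pow, of_eq_one]
  exact hZ.le (pow_mem_center x)

/-- The commutator form composed with a character. -/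
def form (χ : commutator G →* ℂˣ) : Abelianization G →* Abelianization G →* ℂˣ :=
  (MonoidHom.compHom χ).comp (om G)

omit [Finite G] in
theorem form_apply (χ : commutator G →* ℂˣ) (a b : Abelianization G) :
    form χ a b = χ (om G a b) := rfl

theorem sq_of_homCam (hZ : Subgroup.center G = commutator G) (h : HomCam G) : Sq G := by
  obtain ⟨χ, hχ⟩ := pure_char (commutator G)
  refine sq_of_alt _ _ rfl (form χ) (fun v => by rw [form_apply, om_self, map_one])
    (fun a ha => ?_)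
  by_contra hne
  obtain ⟨ψ, hψ⟩ := CommGroup.exists_apply_ne_one_of_hasEnoughRootsOfUnity _ ℂ hne
  obtain ⟨f, hf⟩ := hχ _ ψ (fun v => by rw [← map_pow, ab_pow hZ, map_one])
  obtain ⟨x, rfl⟩ := of_surj a
  obtain ⟨y, hy⟩ := h f x
  apply hψ
  have : f (of x) = om G (of x) (of y) := Subtype.ext hy
  rw [← hf, this, ← form_apply, ha]

theorem exp_of_cp (hG : IsPGroup p G) (h1 : commutator G ≠ ⊥) (h : CP G) :
    Monoid.exponent G = Monoid.exponent (commutator G) ^ 2 := by
  have hZ := center_eq_of_cp hG h1 h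
  obtain ⟨m, hm⟩ := exp_comm hG h1
  have hd : Monoid.exponent G ∣ p ^ (2 * m + 2) := by
    apply Monoid.exponent_dvd_of_forall_pow_eq_one
    intro x
    have h2 : x ^ p ^ (m + 1) ∈ commutator G := by rw [← hm]; exact hZ.le (pow_mem_center x)
    have h3 := congrArg Subtype.val (Monoid.pow_exponent_eq_one (⟨_, h2⟩ : commutator G))
    rw [hm] at h3
    rw [show 2 * m + 2 = (m + 1) + (m + 1) by ring, pow_add, pow_mul]
    exact h3
  obtain ⟨k, hk, hk'⟩ := (Nat.dvd_prime_pow hp.out).1 hd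
  rw [hm, ← pow_mul, hk']
  by_contra hne
  have hk2 : k ≤ 2 * m + 1 := by
    have : k ≠ (m + 1) * 2 := fun h0 => hne (by rw [h0])
    omega
  have hx : ∀ x : G, x ^ p ^ (2 * m + 1) = 1 :=
    Monoid.exponent_dvd_iff_forall_pow_eq_one.1 (by rw [hk']; exact pow_dvd_pow _ hk2)
  have hnd : ¬ p ^ (m + 1) ∣ p ^ m := fun h0 => by
    have := (Nat.pow_dvd_pow_iff_le_right hp.out.one_lt).1 h0
    omega
  by_cases h2 : p = 2 ∧ m = 0
  · obtain ⟨rfl, rfl⟩ := h2
    apply hnd
    rw [← hm]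
    apply exp_dvd_of_comm
    intro x y
    have h3 := mul_pow_two y x 2
    have h4 : ∀ x : G, x ^ 2 = 1 := fun x => by simpa using hx x
    simpa [h4] using h3.symm
  set l := 1 + p ^ m with hl
  have hcop : ¬ p ∣ l := by
    intro h0
    obtain _ | m := m
    · have : p ∣ 2 := by simpa [hl] using h0
      exact h2 ⟨(Nat.prime_dvd_prime_iff_eq hp.out Nat.prime_two).1 this, rfl⟩
    · have : p ∣ 1 := (Nat.dvd_add_left (dvd_pow_self p (Nat.succ_ne_zero m))).1 h0
      exact hp.out.one_lt.ne' (Nat.dvd_one.1 this)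
  have hch : 2 * l.choose 2 = l * p ^ m := by
    rw [Nat.choose_two_right, Nat.two_mul_div_two_of_even (Nat.even_mul_pred_self l)]
    simp [hl]
  obtain ⟨α, hα⟩ := exists_pow_hom (G := G) l (by
    intro n hn x hxn
    rw [hm] at hn
    obtain ⟨j, hj, rfl⟩ := (Nat.dvd_prime_pow hp.out).1 hn
    rw [hch]
    rcases Nat.lt_or_ge m j with h3 | h3
    · obtain rfl : j = m + 1 := by omega
      refine ⟨1, Subtype.ext ?_⟩
      simp only [Subgroup.coe_pow, Subgroup.coe_one, one_pow]
      rw [mul_comm, pow_mul, ← pow_mul x, ← pow_add, show m + 1 + m = 2 * m + 1 by ring, hx,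
        one_pow]
    · refine ⟨⟨_, hxn⟩ ^ (l * p ^ (m - j)), ?_⟩
      rw [← pow_mul, mul_assoc, ← pow_add, Nat.sub_add_cancel h3])
  have hone : ∀ {H : Type u} [Group H], IsPGroup p H → ∀ (t : ℕ), ¬ p ∣ t → ∀ a : H,
      a ^ t = 1 → a = 1 := by
    intro H _ hH t ht a ha
    obtain ⟨j, hj⟩ := hH a
    have h3 : Nat.Coprime (p ^ j) t := ((Nat.Prime.coprime_iff_not_dvd hp.out).2 ht).pow_left j
    have h4 := Nat.dvd_gcd (orderOf_dvd_of_pow_eq_one hj) (orderOf_dvd_of_pow_eq_one ha)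
    rw [h3, Nat.dvd_one] at h4
    exact orderOf_eq_one_iff.1 h4
  have hinj : Function.Injective α := by
    rw [injective_iff_map_eq_one]
    intro x hx1
    have h3 := hα x
    rw [hx1, map_one] at h3
    have h4 : x ∈ commutator G := of_eq_one.1 (hone (pA hG) l hcop _ h3.symm)
    rw [scal_comm α l hα x h4] at hx1
    exact hone hG (l * l) (fun h0 => hcop ((hp.out.dvd_mul.1 h0).elim id id)) x hx1
  have hfix : ∀ x : G, x ^ p ^ m ∈ Subgroup.center G := fun x => by
    obtain ⟨c, hc⟩ := isConj_iff.1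
      (h (MulEquiv.ofBijective α (Finite.injective_iff_bijective.1 hinj)) x)
    have h3 : of (c * x * c⁻¹) = of x ^ l := by rw [hc]; exact hα x
    rw [map_mul, map_mul, map_inv, mul_right_comm, mul_inv_cancel, one_mul, hl, pow_add,
      pow_one, left_eq_mul] at h3
    rw [hZ, ← of_eq_one, map_pow, h3]
  apply hnd
  rw [← hm]
  apply exp_dvd_of_comm
  intro x y
  rw [← comm_pow_left]
  exact commutatorElement_eq_one_iff_mul_comm.2 (Subgroup.mem_center_iff.1 (hfix x) y).symm

theorem height_of_homCam (h : HomCam G) : Height G := by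
  intro x w hw hh
  have hnat : ∀ n k : ℕ, (∃ a, of x ^ k = a ^ n) →
      ∃ u : commutator G, (⟨w, hw⟩ : commutator G) ^ k = u ^ n := by
    rintro n k ⟨a, ha⟩
    obtain ⟨g, rfl⟩ := of_surj a
    obtain ⟨u, hu, hu'⟩ := hh k n ⟨g, by
      rw [← of_eq_one, map_mul, map_inv, map_pow, map_pow, ha, mul_inv_cancel]⟩
    exact ⟨⟨u, hu⟩, Subtype.ext hu'⟩
  obtain ⟨f, hf⟩ := ext_height (zpowersHom _ (of x)) (zpowersHom (commutator G) ⟨w, hw⟩) (by
    rintro n - k ⟨a, ha⟩
    rw [zpowersHom_apply] at ha ⊢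
    obtain ⟨j, hj | hj⟩ := Int.eq_nat_or_neg k.toAdd
    · rw [hj, zpow_natCast] at ha ⊢
      exact hnat n j ⟨a, ha⟩
    · rw [hj, zpow_neg, zpow_natCast] at ha ⊢
      obtain ⟨u, hu⟩ := hnat n j ⟨a⁻¹, by rw [inv_pow, ← ha, inv_inv]⟩
      exact ⟨u⁻¹, by rw [hu, inv_pow]⟩)
  have h1 := hf (Multiplicative.ofAdd 1)
  simp only [zpowersHom_apply, toAdd_ofAdd, zpow_one] at h1
  obtain ⟨y, hy⟩ := h f x
  exact ⟨y, by rw [← hy, h1]⟩

omit [Finite G] [Two G] in
theorem homCam_of_height (h : Height G) : HomCam G := by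
  intro f x
  refine h x _ (f (of x)).2 ?_
  rintro k n ⟨g, hg⟩
  rw [← of_eq_one, map_mul, map_inv, map_pow, map_pow, mul_inv_eq_one] at hg
  refine ⟨f (of g), (f (of g)).2, ?_⟩
  rw [← Subgroup.coe_pow, ← Subgroup.coe_pow, ← map_pow f, ← map_pow f, hg]

theorem key_lemma (hG : IsPGroup p G) (hN : NC G) (hS : Sq G) (χ : commutator G →* ℂˣ)
    (a : Abelianization G) (ha : form χ a = 1) (f : Abelianization G →* commutator G) :
    χ (f a) = 1 := by
  obtain ⟨B, _, ⟨e⟩⟩ := hS
  let K : Subgroup (Abelianization G) := ⨅ f : Abelianization G →* commutator G, (χ.comp f).ker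
  have hK : ∀ b, b ∈ K ↔ ∀ f : Abelianization G →* commutator G, χ (f b) = 1 := fun b => by
    simp [K, Subgroup.mem_iInf, MonoidHom.mem_ker]
  let KB : Subgroup B := ⨅ g : B →* commutator G, (χ.comp g).ker
  have hKB : ∀ b, b ∈ KB ↔ ∀ g : B →* commutator G, χ (g b) = 1 := fun b => by
    simp [KB, Subgroup.mem_iInf, MonoidHom.mem_ker]
  have hKsq : SqKer K := by
    refine ⟨B ⧸ KB, inferInstance,
      ((QuotientGroup.mk' KB).prodMap (QuotientGroup.mk' KB)).comp e.toMonoidHom,
      ((QuotientGroup.mk'_surjective KB).prodMap (QuotientGroup.mk'_surjective KB)).comp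
        e.surjective, ?_⟩
    ext b
    rw [hK, MonoidHom.mem_ker]
    change ((((e b).1 : B ⧸ KB), ((e b).2 : B ⧸ KB)) = 1) ↔ _
    rw [Prod.mk_eq_one, QuotientGroup.eq_one_iff, QuotientGroup.eq_one_iff, hKB, hKB]
    constructor
    · rintro ⟨h1, h2⟩ f
      have hb : b = e.symm ((e b).1, 1) * e.symm (1, (e b).2) := by
        rw [← map_mul]; simp
      have h3 := h1 (f.comp (e.symm.toMonoidHom.comp (MonoidHom.inl B B)))
      have h4 := h2 (f.comp (e.symm.toMonoidHom.comp (MonoidHom.inr B B)))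
      rw [hb, map_mul, map_mul]
      exact (congrArg₂ (· * ·) h3 h4).trans (one_mul 1)
    · intro h
      exact ⟨fun g => h (g.comp ((MonoidHom.fst B B).comp e.toMonoidHom)),
        fun g => h (g.comp ((MonoidHom.snd B B).comp e.toMonoidHom))⟩
  have halt : ∀ v, form χ v v = 1 := fun v => by rw [form_apply, om_self, map_one]
  have hKR : K ≤ (form χ).ker := fun b hb => by
    rw [MonoidHom.mem_ker]
    refine MonoidHom.ext fun c => ?_
    exact (hK b).1 hb ((om G).flip c)
  let R : Subgroup G := (form χ).ker.comap of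
  have hR : ∀ x, x ∈ R ↔ ∀ y, χ ⟨⁅x, y⁆, comm_mem x y⟩ = 1 := fun x => by
    change form χ (of x) = 1 ↔ _
    constructor
    · intro h y
      exact DFunLike.congr_fun h (of y)
    · intro h
      refine MonoidHom.ext fun c => ?_
      obtain ⟨y, rfl⟩ := of_surj c
      exact h y
  have hWR : commutator G ≤ R := fun w hw => by
    change form χ (of w) = 1
    rw [of_eq_one.2 hw, map_one]
  have hcR : commutator R ≤ (χ.ker.map (commutator G).subtype).comap R.subtype := by
    rw [commutator_eq_closure, Subgroup.closure_le]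
    rintro _ ⟨r, r', rfl⟩
    exact ⟨⟨⁅r.1, r'.1⁆, comm_mem _ _⟩, (hR _).1 r.2 _, rfl⟩
  obtain ⟨ψ', hψ'⟩ := ext_char ((of : R →* Abelianization R).comp (Subgroup.inclusion hWR)) χ
    (fun w hw => by
      obtain ⟨w', h1, h2⟩ := hcR (of_eq_one.1 hw)
      have : w' = w := Subtype.ext h2
      exact this ▸ h1)
  let ψ : R →* ℂˣ := ψ'.comp of
  have hψ : ∀ w : commutator G, ψ ⟨w, hWR w.2⟩ = χ w := hψ'
  let N : Subgroup G := ψ.ker.map R.subtype
  have hNn : N.Normal := ⟨by
    rintro _ ⟨r, hr, rfl⟩ g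
    obtain ⟨y, hy⟩ := (isConj_iff_comm (r : G) ((r : G)⁻¹ * (g * r * g⁻¹))).1 (by
      rw [mul_inv_cancel_left]; exact isConj_iff.2 ⟨g, rfl⟩)
    refine ⟨r * ⟨⁅r.1, y⁆, hWR (comm_mem _ _)⟩, ?_, ?_⟩
    · have hr' : ψ r = 1 := hr
      change ψ _ = 1
      rw [map_mul, hr', one_mul]
      exact (hψ ⟨_, comm_mem _ _⟩).trans ((hR _).1 r.2 y)
    · change (r : G) * ⁅r.1, y⁆ = g * r * g⁻¹
      rw [← hy, mul_inv_cancel_left]⟩
  have hker : ∀ r : R, ψ r = 1 → of (r : G) ∈ K := fun r hr => by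
    rw [hK]
    intro f
    obtain ⟨α, hα⟩ := aut_of_hom f
    have h1 : (r : G) ∈ N := ⟨r, hr, rfl⟩
    have h2 := char_mem (hN N hNn) α h1
    rw [hα] at h2
    obtain ⟨r', h3, h4⟩ := (N.mul_mem_cancel_left h1).1 h2
    have h5 : r' = ⟨f (of r), hWR (f (of r)).2⟩ := Subtype.ext h4
    rw [← hψ, ← h5]
    exact h3
  have hfin : Finite ψ.range := Set.finite_range ψ |>.to_subtype
  obtain ⟨⟨_, ρ, rfl⟩, hρ⟩ := IsCyclic.exists_generator (α := ψ.range)
  have hle := le_of_sqKer (pA hG) hKsq (sqKer_rad (form χ) halt) hKR (of (ρ : G)) ρ.2 (by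
    intro b hb
    obtain ⟨x, rfl⟩ := of_surj b
    obtain ⟨k, hk⟩ := hρ ⟨ψ ⟨x, hb⟩, _, rfl⟩
    have hk' : ψ ρ ^ k = ψ ⟨x, hb⟩ := congrArg Subtype.val hk
    refine ⟨k, ?_⟩
    have := hker (⟨x, hb⟩ * (ρ ^ k)⁻¹) (by rw [map_mul, map_inv, map_zpow, hk', mul_inv_cancel])
    simpa using this)
  exact (hK a).1 (hle ha) f

theorem homCam_of_nc (hG : IsPGroup p G) (hN : NC G) (hS : Sq G) : HomCam G := by
  intro f x
  have : f (of x) ∈ (om G (of x)).range := by
    rw [← CommGroup.forall_monoidHom_apply_eq_one_iff ℂ]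
    intro χ hχ
    exact key_lemma hG hN hS χ _ (MonoidHom.ext fun c => hχ _ ⟨c, rfl⟩) f
  obtain ⟨b, hb⟩ := this
  obtain ⟨y, rfl⟩ := of_surj b
  exact ⟨y, by rw [← hb, om_of]⟩

theorem center_eq_of_nc (hG : IsPGroup p G) (h1 : commutator G ≠ ⊥) (hN : NC G) (hS : Sq G)
    (hE : Monoid.exponent G = Monoid.exponent (commutator G) ^ 2) :
    Subgroup.center G = commutator G := by
  have hH := homCam_of_nc hG hN hS
  refine le_antisymm (fun z hz => ?_) Two.le
  by_contra hzW
  obtain ⟨m, hm⟩ := exp_comm hG h1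
  obtain ⟨g, hg⟩ := center_pow hH hz
  have hw : (g ^ Monoid.exponent (commutator G))⁻¹ * z ∈ commutator G := by
    rw [← of_eq_one, map_mul, map_inv, map_pow, hg, inv_mul_cancel]
  have hz1 : z ^ Monoid.exponent (commutator G) = 1 := by
    have h2 : z = g ^ Monoid.exponent (commutator G) *
        ((g ^ Monoid.exponent (commutator G))⁻¹ * z) := by simp
    have h3 := congrArg Subtype.val (Monoid.pow_exponent_eq_one (⟨_, hw⟩ : commutator G))
    simp only [Subgroup.coe_pow, Subgroup.coe_one] at h3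
    rw [h2, Commute.mul_pow (cen hw _), h3, ← pow_mul, ← sq, ← hE, Monoid.pow_exponent_eq_one,
      one_mul]
  have hd : orderOf z ∣ Monoid.exponent (Abelianization G) := by
    refine (orderOf_dvd_of_pow_eq_one hz1).trans ?_
    have := dvd_exp_of_pow_ne hG (a := of g) (m := m + 1)
      (by rw [← hm, ← hg]; exact fun h0 => hzW (of_eq_one.1 h0))
    rw [hm]
    exact (pow_dvd_pow p (Nat.le_succ _)).trans this
  have key : ∀ a : Abelianization G, orderOf a = Monoid.exponent (Abelianization G) →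
      of z ∈ Subgroup.zpowers a := by
    intro a ha
    obtain ⟨f, hf1, hf2⟩ := hom_to_zpowers a ha z hd
    have hfz : f (of z) = 1 := by
      obtain ⟨k, hk⟩ := hf2 (of g)
      rw [hg, map_pow, ← hk]
      change (z ^ k) ^ _ = 1
      rw [← zpow_natCast, ← zpow_mul, mul_comm, zpow_mul, zpow_natCast, hz1, one_zpow]
    obtain ⟨α, hα⟩ := central_aut (f.comp of) (fun x => (Subgroup.zpowers_le.2 hz) (hf2 _))
      (fun x => by
        obtain ⟨k, hk⟩ := hf2 (of x)
        simp only [MonoidHom.comp_apply]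
        rw [← hk]
        simp [hfz])
    obtain ⟨x, rfl⟩ := of_surj a
    have h2 : x ∈ (Subgroup.zpowers (of x)).comap of := Subgroup.mem_zpowers _
    have h3 := char_mem (hN _ inferInstance) α h2
    rw [hα, MonoidHom.comp_apply, hf1] at h3
    exact (Subgroup.mul_mem_cancel_left _ h2).1 h3
  obtain ⟨B, _, ⟨e⟩⟩ := hS
  have : Finite (B × B) := Finite.of_equiv _ e.toEquiv
  have : Finite B := Finite.of_injective (fun b : B => ((b, 1) : B × B))
    (fun a b hab => congrArg Prod.fst hab)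
  obtain ⟨b0, hb0⟩ := Monoid.exists_orderOf_eq_exponent (Monoid.ExponentExists.of_finite (G := B))
  have hexp : Monoid.exponent (Abelianization G) = Monoid.exponent B := by
    rw [Monoid.exponent_eq_of_mulEquiv e, Monoid.exponent_prod, lcm_same, normalize_eq]
  obtain ⟨k, hk⟩ := key (e.symm (b0, 1)) (by
    rw [MulEquiv.orderOf_eq, Prod.orderOf_mk, hexp, hb0]; simp)
  obtain ⟨j, hj⟩ := key (e.symm (1, b0)) (by
    rw [MulEquiv.orderOf_eq, Prod.orderOf_mk, hexp, hb0]; simp)
  have hk' : e (of z) = (b0, 1) ^ k := by rw [← hk]; simp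
  have hj' : e (of z) = (1, b0) ^ j := by rw [← hj]; simp
  apply hzW
  rw [← of_eq_one, ← e.map_eq_one_iff]
  exact Prod.ext (by rw [hj']; simp) (by rw [hk']; simp)

theorem cp_of_core (hG : IsPGroup p G) (h1 : commutator G ≠ ⊥)
    (hZ : Subgroup.center G = commutator G) (hH : HomCam G)
    (hE : Monoid.exponent G = Monoid.exponent (commutator G) ^ 2)
    (hC : ∀ N : Subgroup G, commutator G ≤ N → N.Characteristic) : CP G := by
  obtain ⟨B, _, ⟨e⟩⟩ := sq_of_homCam hZ hH
  obtain ⟨m, hm⟩ := exp_comm hG h1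
  intro α
  obtain ⟨l, hl⟩ := scalar_of_sq e (Abelianization.map α.toMonoidHom) (fun a => by
    obtain ⟨x, rfl⟩ := of_surj a
    have h2 : x ∈ (Subgroup.zpowers (of x)).comap of := Subgroup.mem_zpowers _
    exact char_mem (hC _ (fun w hw => by
      rw [Subgroup.mem_comap, of_eq_one.2 hw]; exact Subgroup.one_mem _)) α h2)
  have hl' : ∀ x, of (α.toMonoidHom x) = of x ^ l := fun x => hl (of x)
  have hW := scal_comm α.toMonoidHom l hl'
  obtain ⟨x0, hx0⟩ : ∃ x0 : G, x0 ^ p ^ (2 * m + 1) ≠ 1 := by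
    by_contra! h0
    have h2 := Monoid.exponent_dvd_of_forall_pow_eq_one h0
    rw [hE, hm, ← pow_mul] at h2
    have := (Nat.pow_dvd_pow_iff_le_right hp.out.one_lt).1 h2
    omega
  have hw : x0 ^ p ^ (m + 1) ∈ commutator G := by rw [← hm]; exact hZ.le (pow_mem_center x0)
  set w := x0 ^ p ^ (m + 1) with hwdef
  have hexp : ∀ v ∈ commutator G, v ^ p ^ (m + 1) = 1 := fun v hv => by
    rw [← hm]
    exact congrArg Subtype.val (Monoid.pow_exponent_eq_one (⟨_, hv⟩ : commutator G))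
  have hw1 : w ^ p ^ m ≠ 1 := by
    rwa [hwdef, ← pow_mul, ← pow_add, show m + 1 + m = 2 * m + 1 by ring]
  have hwo : orderOf w = p ^ (m + 1) := orderOf_eq_prime_pow hw1 (hexp w hw)
  have hαw : α w = w ^ l := by
    have h2 : (x0 ^ l)⁻¹ * α x0 ∈ commutator G := by
      rw [← of_eq_one, map_mul, map_inv, map_pow, ← hl']
      exact inv_mul_cancel _
    have h3 : α x0 = x0 ^ l * ((x0 ^ l)⁻¹ * α x0) := by simp
    rw [hwdef, map_pow, h3, Commute.mul_pow (cen h2 _), hexp _ h2, mul_one, ← pow_mul, ← pow_mul,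
      mul_comm]
  have hcop : ¬ p ∣ l := by
    rintro ⟨t, rfl⟩
    apply hw1
    apply α.injective
    rw [map_pow, hαw, map_one, ← pow_mul, mul_right_comm, ← pow_succ', pow_mul, hexp w hw,
      one_pow]
  have hmod : l ≡ 1 [MOD p ^ (m + 1)] := by
    have h2 : w ^ (l * l) = w ^ (l * 1) := by
      rw [← hW w hw, mul_one]; exact hαw
    rw [pow_eq_pow_iff_modEq, hwo] at h2
    exact Nat.ModEq.cancel_left_of_coprime
      (((Nat.Prime.coprime_iff_not_dvd hp.out).2 hcop).pow_left _) h2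
  have hpow : ∀ {H : Type u} [Group H] (a : H), a ^ p ^ (m + 1) = 1 → a ^ l = a := by
    intro H _ a ha
    have := pow_eq_pow_iff_modEq.2 (hmod.of_dvd (orderOf_dvd_of_pow_eq_one ha))
    rwa [pow_one] at this
  have hmem : ∀ x, x⁻¹ * α x ∈ commutator G := fun x => by
    rw [← of_eq_one, map_mul, map_inv]
    have := hl' x
    rw [hpow _ (hm ▸ ab_pow hZ _)] at this
    exact (congrArg ((of x)⁻¹ * ·) this).trans (inv_mul_cancel _)
  let f : G →* commutator G := MonoidHom.mk' (fun x => ⟨x⁻¹ * α x, hmem x⟩) (fun x y => by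
    apply Subtype.ext
    change (x * y)⁻¹ * α (x * y) = x⁻¹ * α x * (y⁻¹ * α y)
    rw [← mul_assoc, ← cen (hmem x), map_mul, mul_inv_rev]
    simp only [mul_assoc])
  intro x
  obtain ⟨y, hy⟩ := hH (lift f) x
  have : α x = x * ⁅x, y⁆ := by
    rw [← hy]
    exact (mul_inv_cancel_left _ _).symm
  rw [this]
  exact (isConj_iff_comm _ _).2 ⟨y, rfl⟩

end Pool.Agent.P.MP_0b48ca_al.Crit
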